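import Pool.Agent.H891.TY.Main
import Pool.Agent.H891.RG.Eq
import Pool.Graph.R_seed8.W602.GT.Der

/-! Two complementary covering families: coordinates. -/

set_option autoImplicit false
set_option linter.overlappingInstances false
set_option linter.unusedSectionVars false

open FF IntermediateField Algebra Pool.Agent.W619.PQ Pool.Agent.W619.PL Pool.Agent.W619.TW
  Pool.Agent.W603.LV Pool.Agent.W619.Y Pool.Agent.Y174 Pool.Agent.Y173.QA Pool.Agent.H891.KS
  Pool.Agent.H891.TY

namespace Pool.Agent.H891.RF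

section

variable {k Ω : Type} [Field k] [CharZero k] [Field Ω] [Algebra k Ω]

/-- Derivations vanish on the elements which are algebraic over the constants. -/
theorem der_alg (D : Derivation k Ω Ω) {z : Ω}
    (hz : IsAlgebraic (Pool.Agent.W602.GT.consts D) z) : D z = 0 := by
  have hint := hz.isIntegral
  have hchar : CharZero (Pool.Agent.W602.GT.consts D) := charZero_of_injective_algebraMap
    (algebraMap k (Pool.Agent.W602.GT.consts D)).injective
  have h1 : Pool.Agent.W602.GT.overConsts D
      (Polynomial.aeval z (minpoly (Pool.Agent.W602.GT.consts D) z)) = 0 := by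
    rw [minpoly.aeval, map_zero]
  rw [Derivation.map_aeval] at h1
  have h2 : Polynomial.aeval z
      (Polynomial.derivative (minpoly (Pool.Agent.W602.GT.consts D) z)) ≠ 0 :=
    (minpoly.irreducible hint).separable.aeval_derivative_ne_zero (minpoly.aeval _ _)
  rw [smul_eq_mul, Pool.Agent.W602.GT.overConsts_apply] at h1
  exact (mul_eq_zero.mp h1).resolve_left h2

theorem der_alg_set (D : Derivation k Ω Ω) {S : Set Ω} (hS : ∀ s ∈ S, D s = 0) {z : Ω}
    (hz : IsAlgebraic (Algebra.adjoin k S) z) : D z = 0 := by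
  have hle : Algebra.adjoin k S ≤ (Pool.Agent.W602.GT.consts D).toSubalgebra := by
    rw [Algebra.adjoin_le_iff]
    exact hS
  exact der_alg D (isAlg_of_hom (Subalgebra.inclusion hle).toRingHom
    (Subalgebra.inclusion_injective hle) (fun a => rfl) hz)

/-- derivations which are linear over a subfield -/
theorem exists_der (M : IntermediateField k Ω) {z : Ω} (hz : ¬ IsAlgebraic M z) :
    ∃ D : Derivation k Ω Ω, (∀ c ∈ M, D c = 0) ∧ D z = 1 := by
  classical
  have hM : CharZero M := charZero_of_injective_algebraMap (algebraMap k M).injective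
  have h1 : AlgebraicIndepOn M id ({z} : Set Ω) := by
    have : Subsingleton ({z} : Set Ω) := ⟨fun x y => Subtype.ext (x.2.trans y.2.symm)⟩
    exact (algebraicIndependent_singleton_iff (⟨z, rfl⟩ : ({z} : Set Ω))).2 hz
  obtain ⟨t, hat, ht⟩ := exists_isTranscendenceBasis_superset h1
  obtain ⟨G, hG⟩ := Pool.Agent.Y173.QA.exists_duals (k := M) (L := Ω) ht
  refine ⟨(G ⟨z, hat rfl⟩).restrictScalars k, fun c hc => ?_, ?_⟩
  · exact (G ⟨z, hat rfl⟩).map_algebraMap (⟨c, hc⟩ : M)
  · have h3 := hG ⟨z, hat rfl⟩ ⟨z, hat rfl⟩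
    rwa [if_pos rfl] at h3

/-- a generating family of the right size is a transcendence basis -/
theorem tb_of_ders {n : ℕ} (hn : Algebra.trdeg k Ω = n) {x : Fin n → Ω}
    (h : ∀ D : Derivation k Ω Ω, (∀ i, D (x i) = 0) → D = 0) : IsTranscendenceBasis k x := by
  have halg : Algebra.IsAlgebraic (Algebra.adjoin k (Set.range x)) Ω := by
    refine ⟨fun z => ?_⟩
    by_contra hcon
    have h1 : ¬ IsAlgebraic (IntermediateField.adjoin k (Set.range x)) z := fun h =>
      hcon (IntermediateField.isAlgebraic_adjoin_iff.1 h)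
    obtain ⟨D, hD, hDz⟩ := exists_der _ h1
    have h2 := h D fun i => hD _ (IntermediateField.subset_adjoin _ _ ⟨i, rfl⟩)
    rw [h2] at hDz
    exact zero_ne_one hDz
  refine Algebra.IsAlgebraic.isTranscendenceBasis_of_lift_le_trdeg_of_finite k x ?_
  rw [hn]
  simp

end

section

variable {k K : Type} [Field k] [CharZero k] [Field K] [Algebra k K]

theorem mem_of_alg (B : IntermediateField k (AlgebraicClosure K)) (hB : IsAlgClosed B) {d : ℕ}
    {t : Fin d → B} (ht : IsTranscendenceBasis k t) (z : AlgebraicClosure K) :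
    z ∈ B ↔ IsAlgebraic (Algebra.adjoin k (Set.range fun i => (t i : AlgebraicClosure K))) z := by
  constructor
  · intro hz
    have h1 : IsAlgebraic (Algebra.adjoin k (Set.range t)) (⟨z, hz⟩ : B) :=
      ht.isAlgebraic.isAlgebraic _
    have hsub : Algebra.adjoin k (Set.range t) ≤ (Algebra.adjoin k
        (Set.range fun i => (t i : AlgebraicClosure K))).comap B.val := by
      rw [Algebra.adjoin_le_iff]
      rintro _ ⟨i, rfl⟩
      exact Algebra.subset_adjoin ⟨i, rfl⟩
    let f : Algebra.adjoin k (Set.range t) →+* Algebra.adjoin k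
        (Set.range fun i => (t i : AlgebraicClosure K)) :=
      ((algebraMap B (AlgebraicClosure K)).comp
        (algebraMap (Algebra.adjoin k (Set.range t)) B)).codRestrict _ fun a => hsub a.2
    have h2 : IsAlgebraic (Algebra.adjoin k (Set.range t)) (algebraMap B (AlgebraicClosure K)
      (⟨z, hz⟩ : B)) := h1.algebraMap
    refine isAlg_of_hom f (fun a b hab => ?_) (fun a => rfl) h2
    have h4 : ((f a : Algebra.adjoin k (Set.range fun i => (t i : AlgebraicClosure K))) :
        AlgebraicClosure K) = f b := congrArg Subtype.val hab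
    exact Subtype.ext (Subtype.ext h4)
  · intro hz
    have hsub : Algebra.adjoin k (Set.range fun i => (t i : AlgebraicClosure K)) ≤
        B.toSubalgebra := by
      rw [Algebra.adjoin_le_iff]
      rintro _ ⟨i, rfl⟩
      exact (t i).2
    have h1 : IsAlgebraic B z := isAlg_of_hom (Subalgebra.inclusion hsub).toRingHom
      (Subalgebra.inclusion_injective hsub) (fun a => rfl) hz
    have h3 : Algebra.IsAlgebraic B (IntermediateField.adjoin B {z}) :=
      IntermediateField.isAlgebraic_adjoin (fun x hx => by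
        rw [Set.mem_singleton_iff.1 hx]
        exact h1.isIntegral)
    have h4 := IntermediateField.eq_bot_of_isAlgClosed_of_isAlgebraic
      (IntermediateField.adjoin B {z})
    have h5 : z ∈ IntermediateField.adjoin B {z} := IntermediateField.subset_adjoin _ _ rfl
    rw [h4] at h5
    obtain ⟨c, hc⟩ := IntermediateField.mem_bot.1 h5
    rw [← hc]
    exact c.2

/-- **Coordinates for two complementary families.** -/
theorem exists_coords {n : ℕ} (hn : Algebra.trdeg k K = n)
    (B₁ B₂ : IntermediateField k (AlgebraicClosure K)) {f₁ f₂ : ℕ} (hB₁ : IsFamily B₁ n f₁)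
    (hB₂ : IsFamily B₂ n f₂) (hf : f₁ + f₂ = n) (hT : Tan B₁ ⊓ Tan B₂ = ⊥) :
    ∃ (x : Fin n → AlgebraicClosure K) (I : Finset (Fin n)), IsTranscendenceBasis k x ∧
      (∀ z, z ∈ B₁ ↔ IsAlgebraic (Algebra.adjoin k (x '' {i | i ∈ Iᶜ})) z) ∧
      (∀ z, z ∈ B₂ ↔ IsAlgebraic (Algebra.adjoin k (x '' {i | i ∈ I})) z) := by
  classical
  obtain ⟨hc₁, h₁, d₁, hd₁, e₁⟩ := hB₁
  obtain ⟨hc₂, h₂, d₂, hd₂, e₂⟩ := hB₂
  obtain ⟨t, ht⟩ := Pool.Agent.W636.PG.exists_basis k B₁ d₁ hd₁
  obtain ⟨s, hs⟩ := Pool.Agent.W636.PG.exists_basis k B₂ d₂ hd₂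
  have hd : d₁ + d₂ = n := by omega
  subst hd
  have hnΩ : Algebra.trdeg k (AlgebraicClosure K) = (d₁ + d₂ : ℕ) := by
    have h1 := trdeg_add_eq k K (A := AlgebraicClosure K)
    rw [hn, trdeg_eq_zero (R := K), add_zero] at h1
    exact h1.symm
  let x : Fin (d₁ + d₂) → AlgebraicClosure K :=
    Fin.append (fun i => (t i : AlgebraicClosure K)) (fun i => (s i : AlgebraicClosure K))
  have hxt : ∀ i, x (Fin.castAdd d₂ i) = t i := fun i => Fin.append_left _ _ i
  have hxs : ∀ i, x (Fin.natAdd d₁ i) = s i := fun i => Fin.append_right _ _ i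
  have hx : IsTranscendenceBasis k x := by
    refine tb_of_ders hnΩ fun D hD => ?_
    have h1 : D ∈ Tan B₁ ⊓ Tan B₂ := by
      refine ⟨fun b hb => ?_, fun b hb => ?_⟩
      · refine der_alg_set D (S := Set.range fun i => (t i : AlgebraicClosure K)) ?_
          ((mem_of_alg B₁ hc₁ ht b).1 hb)
        rintro _ ⟨i, rfl⟩
        have h2 := hD (Fin.castAdd d₂ i)
        rwa [hxt] at h2
      · refine der_alg_set D (S := Set.range fun i => (s i : AlgebraicClosure K)) ?_
          ((mem_of_alg B₂ hc₂ hs b).1 hb)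
        rintro _ ⟨i, rfl⟩
        have h2 := hD (Fin.natAdd d₁ i)
        rwa [hxs] at h2
    rw [hT] at h1
    exact (Submodule.mem_bot _).1 h1
  refine ⟨x, Finset.univ.image (Fin.natAdd d₁), hx, fun z => ?_, fun z => ?_⟩
  · have h1 : x '' {i | i ∈ (Finset.univ.image (Fin.natAdd d₁) : Finset (Fin (d₁ + d₂)))ᶜ} =
        Set.range fun i => (t i : AlgebraicClosure K) := by
      ext w
      constructor
      · rintro ⟨i, hi, rfl⟩
        refine Fin.addCases (fun i hi => ⟨i, (hxt i).symm⟩) (fun i hi => ?_) i hi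
        exact (Finset.mem_compl.1 (show Fin.natAdd d₁ i ∈ (Finset.univ.image
          (Fin.natAdd d₁) : Finset (Fin (d₁ + d₂)))ᶜ from hi)
          (Finset.mem_image_of_mem _ (Finset.mem_univ _))).elim
      · rintro ⟨i, rfl⟩
        refine ⟨Fin.castAdd d₂ i, ?_, hxt i⟩
        show Fin.castAdd d₂ i ∈ (Finset.univ.image (Fin.natAdd d₁) : Finset (Fin (d₁ + d₂)))ᶜ
        refine Finset.mem_compl.2 fun h => ?_
        obtain ⟨j, -, hj⟩ := Finset.mem_image.1 h
        have h2 := congrArg Fin.val hj
        simp only [Fin.val_natAdd, Fin.val_castAdd] at h2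
        omega
    rw [h1]
    exact mem_of_alg B₁ hc₁ ht z
  · have h1 : x '' {i | i ∈ (Finset.univ.image (Fin.natAdd d₁) : Finset (Fin (d₁ + d₂)))} =
        Set.range fun i => (s i : AlgebraicClosure K) := by
      ext w
      constructor
      · rintro ⟨i, hi, rfl⟩
        obtain ⟨j, -, rfl⟩ := Finset.mem_image.1 (show i ∈ (Finset.univ.image
          (Fin.natAdd d₁) : Finset (Fin (d₁ + d₂))) from hi)
        exact ⟨j, (hxs j).symm⟩
      · rintro ⟨i, rfl⟩
        exact ⟨Fin.natAdd d₁ i, show Fin.natAdd d₁ i ∈ (Finset.univ.image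
          (Fin.natAdd d₁) : Finset (Fin (d₁ + d₂))) from
            Finset.mem_image_of_mem _ (Finset.mem_univ _), hxs i⟩
    rw [h1]
    exact mem_of_alg B₂ hc₂ hs z

end

end Pool.Agent.H891.RF
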