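import Pool.Agent.H891.TY.Defs
import Pool.Agent.H891.RG.Side

/-! The maps defined by the sections on the variety and on the general members of covering
families. -/

set_option autoImplicit false
set_option linter.overlappingInstances false
set_option linter.unusedSectionVars false

open FF IntermediateField Pool.Agent.W619.TW Pool.Agent.Y174 Pool.Agent.H891.TY
  Pool.Agent.H891.RG

namespace Pool.Agent.H891.RF

section

variable {k : Type} {K : Type} [Field k] [Field K] [Algebra k K]
  (B : IntermediateField k (AlgebraicClosure K))

open scoped Classical in
/-- On the general member, of dimension `d`, the sections of `m (K + Δ) + b A` define a rational map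
whose image has dimension at least `a`. -/
def MemImageDim (d : ℕ) (δ' : MemDiv B) (S : Finset K) (m b a : ℕ) : Prop :=
  ImageDim B (MemField B) d δ' (S.image (memHom B)) m b a

open scoped Classical in
/-- On the general member, the sections of `m (K + Δ) + b A` define a birational map. -/
def MemImageBir (d : ℕ) (δ' : MemDiv B) (S : Finset K) (m b : ℕ) : Prop :=
  ImageBir B (MemField B) d δ' (S.image (memHom B)) m b

/-- The elements of `K` which lie in `B`. -/
noncomputable def Des : IntermediateField k K :=
  B.comap (IsScalarTower.toAlgHom k K (AlgebraicClosure K))

/-- The members of the family are (components of) the fibres of a rational map: all elements of `B`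
are algebraic over the elements of `K` which lie in `B`. -/
def IsFibration : Prop :=
  ∀ b ∈ B, IsAlgebraic (Des B) b

end

end Pool.Agent.H891.RF
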