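import Pool.Agent.H891.RF.Side

/-! Two complementary covering families: the equality case. -/

set_option autoImplicit false
set_option linter.overlappingInstances false
set_option linter.unusedSectionVars false

open FF IntermediateField Algebra Pool.Agent.W619.PQ Pool.Agent.W619.PL Pool.Agent.W619.TW
  Pool.Agent.W603.LV Pool.Agent.W619.Y Pool.Agent.Y174 Pool.Agent.Y173.QA Pool.Agent.H891.KS
  Pool.Agent.H891.TY Pool.Agent.H891.RG

namespace Pool.Agent.H891.RF

section

variable {k K : Type} [Field k] [CharZero k] [Field K] [Algebra k K]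

theorem exists_der' {Ω : Type} [Field Ω] [Algebra k Ω] {L : Type} [Field L] [Algebra k L]
    [Algebra L Ω] [IsScalarTower k L Ω] {z : Ω} (hz : ¬ IsAlgebraic L z) :
    ∃ D : Derivation k Ω Ω, (∀ c : L, D (algebraMap L Ω c) = 0) ∧ D z = 1 := by
  classical
  have hM : CharZero L := charZero_of_injective_algebraMap (algebraMap k L).injective
  have h1 : AlgebraicIndepOn L id ({z} : Set Ω) := by
    have : Subsingleton ({z} : Set Ω) := ⟨fun x y => Subtype.ext (x.2.trans y.2.symm)⟩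
    exact (algebraicIndependent_singleton_iff (⟨z, rfl⟩ : ({z} : Set Ω))).2 hz
  obtain ⟨t, hat, ht⟩ := exists_isTranscendenceBasis_superset h1
  obtain ⟨G, hG⟩ := Pool.Agent.Y173.QA.exists_duals (k := L) (L := Ω) ht
  refine ⟨(G ⟨z, hat rfl⟩).restrictScalars k, fun c => ?_, ?_⟩
  · exact (G ⟨z, hat rfl⟩).map_algebraMap c
  · have h3 := hG ⟨z, hat rfl⟩ ⟨z, hat rfl⟩
    rwa [if_pos rfl] at h3

/-- the tangent spaces span -/
theorem tan_sup {n : ℕ} (hn : Algebra.trdeg k K = n)
    {B₁ B₂ : IntermediateField k (AlgebraicClosure K)} {f₁ f₂ : ℕ} (hB₁ : IsFamily B₁ n f₁)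
    (hB₂ : IsFamily B₂ n f₂) (hf : f₁ + f₂ = n) (hT : Tan B₁ ⊓ Tan B₂ = ⊥) :
    Tan B₁ ⊔ Tan B₂ = ⊤ := by
  classical
  obtain ⟨x, I, hx, h1, h2⟩ := exists_coords hn B₁ B₂ hB₁ hB₂ hf hT
  obtain ⟨G, hG⟩ := Pool.Agent.W636.PG.exists_duals k (AlgebraicClosure K) n _ hx
  rw [_root_.eq_top_iff]
  intro D _
  rw [der_expand hx hG D]
  refine Submodule.sum_mem _ fun i _ => Submodule.smul_mem _ _ ?_
  by_cases hi : i ∈ I
  · refine Submodule.mem_sup_left fun b hb => ?_
    refine der_alg_set (G i) ?_ ((h1 b).1 hb)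
    rintro _ ⟨l, hl, rfl⟩
    rw [hG, if_neg]
    rintro rfl
    exact (Finset.mem_compl.1 hl) hi
  · refine Submodule.mem_sup_right fun b hb => ?_
    refine der_alg_set (G i) ?_ ((h2 b).1 hb)
    rintro _ ⟨l, hl, rfl⟩
    rw [hG, if_neg]
    rintro rfl
    exact hi hl

/-- If the function field of the member of the first family is generated by functions from the
second field then the second family is a fibration. -/
theorem fibration_of {B₁ B₂ : IntermediateField k (AlgebraicClosure K)}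
    (hT : Tan B₁ ⊔ Tan B₂ = ⊤) {N : ℕ} {γ : Fin N → K}
    (hγ : ∀ i, algebraMap K (AlgebraicClosure K) (γ i) ∈ B₂)
    (hgen : IntermediateField.adjoin B₁ (Set.range fun i => algebraMap K (MemField B₁) (γ i)) = ⊤) :
    IsFibration B₂ := by
  intro b hb
  by_contra hcon
  obtain ⟨D, hD, hDb⟩ := exists_der' (k := k) (L := Des B₂) hcon
  have hDT : D ∈ Tan B₁ ⊔ Tan B₂ := by
    rw [hT]
    trivial
  obtain ⟨D₁, hD₁, D₂, hD₂, rfl⟩ := Submodule.mem_sup.1 hDT
  -- `D₁` vanishes on `K`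
  have hγ0 : ∀ i, D₁ (algebraMap K (AlgebraicClosure K) (γ i)) = 0 := by
    intro i
    have h1 := hD ⟨γ i, hγ i⟩
    have h2 : (D₁ + D₂) (algebraMap K (AlgebraicClosure K) (γ i)) = 0 := h1
    rw [Derivation.add_apply, hD₂ _ (hγ i), add_zero] at h2
    exact h2
  have hK : ∀ z : MemField B₁, D₁ (Mem B₁ |>.val z) = 0 := by
    intro z
    have hz : z ∈ IntermediateField.adjoin B₁
        (Set.range fun i => algebraMap K (MemField B₁) (γ i)) := by
      rw [hgen]
      trivial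
    induction hz using IntermediateField.adjoin_induction with
    | mem x hx =>
      obtain ⟨i, rfl⟩ := hx
      exact hγ0 i
    | algebraMap x => exact hD₁ _ x.2
    | add x y _ _ hx hy =>
      have h1 : (Mem B₁).val (x + y) = (Mem B₁).val x + (Mem B₁).val y := map_add _ _ _
      rw [h1, map_add, hx, hy, add_zero]
    | inv x _ hx =>
      have h1 : (Mem B₁).val x⁻¹ = ((Mem B₁).val x)⁻¹ := map_inv₀ _ _
      have h2 : D₁ ((Mem B₁).val x)⁻¹ = 0 := by
        rw [Derivation.leibniz_inv, hx, smul_zero]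
      exact (congrArg D₁ h1).trans h2
    | mul x y _ _ hx hy =>
      have h1 : (Mem B₁).val (x * y) = (Mem B₁).val x * (Mem B₁).val y := map_mul _ _ _
      rw [h1, Derivation.leibniz, hx, hy, smul_zero, smul_zero, add_zero]
  have h0 : D₁ = 0 := by
    apply Derivation.ext
    intro z
    have hz : IsAlgebraic K z := Algebra.IsAlgebraic.isAlgebraic z
    have h1 : ∀ a : K, D₁ (algebraMap K (AlgebraicClosure K) a) = 0 := fun a =>
      hK (algebraMap K (MemField B₁) a)
    let f : K →+* Pool.Agent.W602.GT.consts D₁ :=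
      (algebraMap K (AlgebraicClosure K)).codRestrict _ h1
    exact der_alg D₁ (isAlg_of_hom f f.injective (fun a => rfl) hz)
  rw [h0, zero_add, hD₂ b hb] at hDb
  exact zero_ne_one hDb

/-- generators of the function field -/
theorem gen_of {B₁ B₂ : IntermediateField k (AlgebraicClosure K)} (hB₁ : IsAlgClosed B₁)
    (hfib : IsFibration B₁) {N : ℕ} {γ : Fin N → K}
    (hγ : ∀ i, algebraMap K (AlgebraicClosure K) (γ i) ∈ B₂)
    (hgen : IntermediateField.adjoin B₁ (Set.range fun i => algebraMap K (MemField B₁) (γ i)) = ⊤) :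
    IntermediateField.adjoin k {z : K | algebraMap K (AlgebraicClosure K) z ∈ B₁ ∨
      algebraMap K (AlgebraicClosure K) z ∈ B₂} = ⊤ := by
  have hDL : ∀ z : Des B₁, algebraMap K (AlgebraicClosure K) (z : K) ∈ B₁ := fun z => z.2
  let _ : Algebra (Des B₁) B₁ :=
    (((algebraMap K (AlgebraicClosure K)).comp (algebraMap (Des B₁) K)).codRestrict
      B₁.toSubring hDL).toAlgebra
  have _ : IsScalarTower (Des B₁) B₁ (MemField B₁) := IsScalarTower.of_algebraMap_eq fun z => rfl
  have _ : IsScalarTower (Des B₁) K (MemField B₁) := IsScalarTower.of_algebraMap_eq fun z => rfl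
  have _ : IsScalarTower (Des B₁) B₁ (AlgebraicClosure K) :=
    IsScalarTower.of_algebraMap_eq fun z => rfl
  have _ : Algebra.IsAlgebraic (Des B₁) B₁ := ⟨fun b =>
    (isAlgebraic_algebraMap_iff (S := B₁) (A := AlgebraicClosure K)
      (algebraMap B₁ (AlgebraicClosure K)).injective).1 (hfib _ b.2)⟩
  have hD0 : CharZero (Des B₁) :=
    charZero_of_injective_algebraMap (algebraMap k (Des B₁)).injective
  have hcl : ∀ z : K, IsIntegral (Des B₁) z →
      ∃ y : Des B₁, algebraMap (Des B₁) K y = z := by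
    intro z hz
    have h1 : IsIntegral (Des B₁) (algebraMap K (AlgebraicClosure K) z) := hz.algebraMap
    have h2 : IsIntegral B₁ (algebraMap K (AlgebraicClosure K) z) := h1.tower_top
    have h3 : Algebra.IsAlgebraic B₁
        (IntermediateField.adjoin B₁ {algebraMap K (AlgebraicClosure K) z}) :=
      IntermediateField.isAlgebraic_adjoin (fun x hx => by
        rw [Set.mem_singleton_iff.1 hx]
        exact h2)
    have h4 := IntermediateField.eq_bot_of_isAlgClosed_of_isAlgebraic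
      (IntermediateField.adjoin B₁ {algebraMap K (AlgebraicClosure K) z})
    have h5 : algebraMap K (AlgebraicClosure K) z ∈
        IntermediateField.adjoin B₁ {algebraMap K (AlgebraicClosure K) z} :=
      IntermediateField.subset_adjoin _ _ rfl
    rw [h4] at h5
    obtain ⟨c, hc⟩ := IntermediateField.mem_bot.1 h5
    have h6 : algebraMap K (AlgebraicClosure K) z ∈ B₁ := by
      rw [← hc]
      exact c.2
    exact ⟨⟨z, h6⟩, rfl⟩
  have h1 := desc_gen (Λ := B₁) (F := MemField B₁) hcl γ hgen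
  refine comp_top (Des B₁) h1 (fun z hz => Or.inl hz) ?_
  rintro _ ⟨i, rfl⟩
  exact Or.inr (hγ i)

variable [IsAlgClosed k]

open scoped Classical in
/-- **The equality case.** -/
theorem fam_equality (hess : Algebra.EssFiniteType k K) {n : ℕ} (hn : Algebra.trdeg k K = n)
    {y : Fin n → K} (hy : IsTranscendenceBasis k y)
    {B₁ B₂ : IntermediateField k (AlgebraicClosure K)} {f₁ f₂ : ℕ} (hB₁ : IsFamily B₁ n f₁)
    (hB₂ : IsFamily B₂ n f₂) (hf : f₁ + f₂ = n) (hT : Tan B₁ ⊓ Tan B₂ = ⊥)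
    {δ : Place k K → ℝ} {δ₁ : MemDiv B₁} {δ₂ : MemDiv B₂} (hδ₁ : IsRestrMem B₁ δ δ₁)
    (hδ₂ : IsRestrMem B₂ δ δ₂) {S : Finset K} {m b N₁ N₂ : ℕ}
    (hN₁ : ∀ N', MemIndep B₁ f₁ δ₁ S m b N' → N' ≤ N₁)
    (hN₂ : ∀ N', MemIndep B₂ f₂ δ₂ S m b N' → N' ≤ N₂)
    (hN : HasIndep k K n (N₁ * N₂) (PairSec k K n δ S m b)) (hpos : 0 < N₁ * N₂) :
    (∃ (w : K) (a : Fin N₂ → K) (c : Fin N₁ → K), w ≠ 0 ∧
      (∀ j, algebraMap K (AlgebraicClosure K) (a j) ∈ B₁) ∧
      (∀ i, algebraMap K (AlgebraicClosure K) (c i) ∈ B₂) ∧ LinearIndependent k a ∧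
      LinearIndependent k c ∧ ∀ ω, PairSec k K n δ S m b ω ↔
        ∃ s : Fin N₂ × Fin N₁ → k, ω = frm k y m (∑ p, s p • (a p.1 * c p.2 * w))) ∧
    (∀ a₁ a₂ : ℕ, MemImageDim B₁ f₁ δ₁ S m b a₁ → MemImageDim B₂ f₂ δ₂ S m b a₂ →
      ImageDim k K n δ S m b (a₁ + a₂)) ∧
    (MemImageBir B₁ f₁ δ₁ S m b → IsFibration B₂) ∧
    (MemImageBir B₂ f₂ δ₂ S m b → IsFibration B₁) ∧
    ((MemImageBir B₁ f₁ δ₁ S m b ∧ IsFibration B₁) ∨
      (MemImageBir B₂ f₂ δ₂ S m b ∧ IsFibration B₂) →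
      IntermediateField.adjoin k {z : K | algebraMap K (AlgebraicClosure K) z ∈ B₁ ∨
        algebraMap K (AlgebraicClosure K) z ∈ B₂} = ⊤) := by
  obtain ⟨E, hE⟩ := Pool.Agent.W636.PG.exists_duals k K n _ hy
  obtain ⟨w, a, c, hw, ha, hc, hla, hlc, hsec⟩ :=
    fam_core hess hn hy hB₁ hB₂ hf hT hδ₁ hδ₂ hN₁ hN₂ hN hpos
  refine ⟨⟨w, a, c, hw, ha, hc, hla, hlc, hsec⟩, ?_⟩
  obtain ⟨⟨O, C, H⟩, ⟨O', C', H'⟩⟩ := halves hn B₁ B₂ hB₁ hB₂ hf hT
  have hsup := tan_sup hn hB₁ hB₂ hf hT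
  have hup : ∀ {N : ℕ} {u : Fin N → K}, LinearIndependent k u →
      LinearIndependent k fun i => algebraMap K (AlgebraicClosure K) (u i) := fun h =>
    h.map' (IsScalarTower.toAlgHom k K (AlgebraicClosure K)).toLinearMap
      (LinearMap.ker_eq_bot.2 (algebraMap K (AlgebraicClosure K)).injective)
  have hcL : LinearIndependent B₁ fun i => algebraMap K (AlgebraicClosure K) (c i) :=
    H'.lin_disj hc (hup hlc)
  have haL : LinearIndependent B₂ fun i => algebraMap K (AlgebraicClosure K) (a i) :=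
    H.lin_disj ha (hup hla)
  have hp1 : 0 < N₁ := Nat.pos_of_mul_pos_right hpos
  have hp2 : 0 < N₂ := Nat.pos_of_mul_pos_left hpos
  let i₀ : Fin N₁ := ⟨0, hp1⟩
  let j₀ : Fin N₂ := ⟨0, hp2⟩
  have ha0 : ∀ j, a j ≠ 0 := fun j => hla.ne_zero j
  have hc0 : ∀ i, c i ≠ 0 := fun i => hlc.ne_zero i
  have hprod : ∀ j i, PairSec k K n δ S m b (frm k y m (a j * c i * w)) := by
    intro j i
    refine (hsec _).2 ⟨Pi.single (j, i) 1, ?_⟩
    congr 1
    rw [Finset.sum_eq_single (j, i)]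
    · rw [Pi.single_eq_same, one_smul]
    · intro p _ hp
      rw [Pi.single_eq_of_ne hp, zero_smul]
    · intro h
      exact (h (Finset.mem_univ _)).elim
  obtain ⟨hA, hB⟩ := mem_side hess hn hy B₁ hB₁ hδ₁ hN₁ (c := c) (w := a j₀ * w)
    (mul_ne_zero (ha0 j₀) hw) (fun i => by
      have h1 : c i * (a j₀ * w) = a j₀ * c i * w := by ring
      rw [h1]
      exact hprod j₀ i) hcL i₀
  obtain ⟨hA', hB'⟩ := mem_side hess hn hy B₂ hB₂ hδ₂ hN₂ (c := a) (w := c i₀ * w)
    (mul_ne_zero (hc0 i₀) hw) (fun j => by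
      rw [← mul_assoc]
      exact hprod j i₀) haL j₀
  have hγ : ∀ i, algebraMap K (AlgebraicClosure K) (c i / c i₀) ∈ B₂ := fun i => by
    rw [map_div₀]
    exact div_mem (hc i) (hc i₀)
  have hα : ∀ j, algebraMap K (AlgebraicClosure K) (a j / a j₀) ∈ B₁ := fun j => by
    rw [map_div₀]
    exact div_mem (ha j) (ha j₀)
  refine ⟨?_, fun h => fibration_of hsup hγ (hB h), fun h => ?_, ?_⟩
  · intro a₁ a₂ h₁ h₂
    obtain ⟨e₁, he₁⟩ := hA a₁ h₁
    obtain ⟨e₂, he₂⟩ := hA' a₂ h₂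
    have he₃ : AlgebraicIndependent k fun l => a (e₂ l) / a j₀ :=
      he₂.restrictScalars (algebraMap k (Des B₂)).injective
    have hmem : ∀ l, a (e₂ l) / a j₀ ∈ Des B₁ := fun l => hα _
    have he₄ : AlgebraicIndependent k fun l => (⟨a (e₂ l) / a j₀, hmem l⟩ : Des B₁) := by
      rw [← (Des B₁).val.algebraicIndependent_iff Subtype.val_injective]
      exact he₃
    have he₅ := AlgebraicIndependent.sumElim_comp he₄ he₁
    have he₆ := he₅.comp (finSumFinEquiv (m := a₁) (n := a₂)).symm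
      (finSumFinEquiv (m := a₁) (n := a₂)).symm.injective
    refine ⟨Fin.cons (frm k y m (a j₀ * c i₀ * w)) (fun l => Sum.elim
      (fun l => frm k y m (a j₀ * c (e₁ l) * w)) (fun l => frm k y m (a (e₂ l) * c i₀ * w))
      ((finSumFinEquiv (m := a₁) (n := a₂)).symm l)), ?_, E, ?_, ?_⟩
    · intro l
      refine Fin.cases (hprod j₀ i₀) (fun l => ?_) l
      rw [Fin.cons_succ]
      rcases (finSumFinEquiv (m := a₁) (n := a₂)).symm l with l | l
      · exact hprod _ _
      · exact hprod _ _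
    · intro l
      refine Fin.cases ?_ (fun l => ?_) l
      · rw [Fin.cons_zero, frm_E hE]
        exact mul_ne_zero (mul_ne_zero (ha0 _) (hc0 _)) hw
      · rw [Fin.cons_succ]
        rcases (finSumFinEquiv (m := a₁) (n := a₂)).symm l with l | l
        · rw [Sum.elim_inl, frm_E hE]
          exact mul_ne_zero (mul_ne_zero (ha0 _) (hc0 _)) hw
        · rw [Sum.elim_inr, frm_E hE]
          exact mul_ne_zero (mul_ne_zero (ha0 _) (hc0 _)) hw
    · have h1 : (fun l : Fin (a₁ + a₂) =>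
          (Fin.cons (frm k y m (a j₀ * c i₀ * w)) (fun l => Sum.elim
            (fun l => frm k y m (a j₀ * c (e₁ l) * w)) (fun l => frm k y m (a (e₂ l) * c i₀ * w))
            ((finSumFinEquiv (m := a₁) (n := a₂)).symm l)) :
              Fin (a₁ + a₂ + 1) → (Fin n → Derivation k K K) → K) l.succ E /
          (Fin.cons (frm k y m (a j₀ * c i₀ * w)) (fun l => Sum.elim
            (fun l => frm k y m (a j₀ * c (e₁ l) * w)) (fun l => frm k y m (a (e₂ l) * c i₀ * w))
            ((finSumFinEquiv (m := a₁) (n := a₂)).symm l)) :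
              Fin (a₁ + a₂ + 1) → (Fin n → Derivation k K K) → K) 0 E) =
          (Sum.elim (fun l => c (e₁ l) / c i₀) ((algebraMap (Des B₁) K) ∘
            fun l => (⟨a (e₂ l) / a j₀, hmem l⟩ : Des B₁))) ∘
            (finSumFinEquiv (m := a₁) (n := a₂)).symm := by
        funext l
        rw [Fin.cons_succ, Fin.cons_zero, frm_E hE, Function.comp_apply]
        rcases (finSumFinEquiv (m := a₁) (n := a₂)).symm l with l | l
        · rw [Sum.elim_inl, Sum.elim_inl, frm_E hE]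
          rw [mul_assoc, mul_assoc, mul_div_mul_left _ _ (ha0 j₀), mul_div_mul_right _ _ hw]
        · rw [Sum.elim_inr, Sum.elim_inr, frm_E hE]
          show _ = a (e₂ l) / a j₀
          rw [mul_div_mul_right _ _ hw, mul_div_mul_right _ _ (hc0 i₀)]
      rw [h1]
      exact he₆
  · exact fibration_of (by rw [sup_comm]; exact hsup) hα (hB' h)
  · rintro (⟨h, hfib⟩ | ⟨h, hfib⟩)
    · exact gen_of hB₁.1 hfib hγ (hB h)
    · have h1 := gen_of hB₂.1 hfib hα (hB' h)
      rw [← h1]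
      congr 1
      ext z
      exact or_comm

end

end Pool.Agent.H891.RF
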