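import Pool.Agent.H891.RF.Struct
import Pool.Agent.H891.RF.Defs

/-! Two complementary covering families: the maps defined by the sections. -/

set_option autoImplicit false
set_option linter.overlappingInstances false
set_option linter.unusedSectionVars false

open FF IntermediateField Algebra Pool.Agent.W619.PQ Pool.Agent.W619.PL Pool.Agent.W619.TW
  Pool.Agent.W603.LV Pool.Agent.W619.Y Pool.Agent.Y174 Pool.Agent.Y173.QA Pool.Agent.H891.KS
  Pool.Agent.H891.TY Pool.Agent.H891.RG

namespace Pool.Agent.H891.RF

section

variable {k K : Type} [Field k] [CharZero k] [Field K] [Algebra k K]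

theorem mem_Des {B : IntermediateField k (AlgebraicClosure K)} {z : K} :
    z ∈ Des B ↔ algebraMap K (AlgebraicClosure K) z ∈ B := Iff.rfl

/-- pull-back of divisors to a finite cover, and restriction -/
theorem pull_fib {K' Λ F : Type} [Field K'] [Field Λ] [Field F] [Algebra k K'] [Algebra K K']
    [IsScalarTower k K K'] [FiniteDimensional K K'] [Algebra Λ F] [Algebra K' F] [Algebra K F]
    [IsScalarTower K K' F] {δ : Place k K → ℝ} {δ' : Place Λ F → ℝ} (hδ : IsPullFib δ δ')
    {δK : Place k K' → ℝ} (hδK : IsPull δ δK) : IsPullFib δK δ' := by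
  intro v' w e' h
  obtain ⟨e, v, hwv⟩ := Pool.Agent.W73.PG.PULL.exists_over' (K := K) v'
  have h1 := hδK v v' e hwv
  have h2 := hδ v w (e' * e) ⟨Nat.mul_pos h.1 hwv.1, fun f => by
    rw [IsScalarTower.algebraMap_apply K K' F, h.2, hwv.2]
    push_cast
    ring⟩
  rw [h2, h1]
  have he' : (1 : ℝ) ≤ e' := by exact_mod_cast h.1
  push_cast
  rcases le_total 0 (1 - (e : ℝ) * (1 - δ v)) with h3 | h3
  · rw [max_eq_right h3]
    congr 1
    ring
  · rw [max_eq_left h3, sub_zero, mul_one]
    have h4 : (1 : ℝ) ≤ e * (1 - δ v) := by linarith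
    have h5 : (e' : ℝ) ≤ e' * (e * (1 - δ v)) := by nlinarith
    rw [max_eq_left, max_eq_left]
    · linarith
    · rw [mul_assoc]
      linarith

open scoped Classical in
/-- `fib_side` for the general member of a covering family. -/
theorem mem_side (hess : Algebra.EssFiniteType k K) {n : ℕ} (hn : Algebra.trdeg k K = n)
    {y : Fin n → K} (hy : IsTranscendenceBasis k y)
    (B : IntermediateField k (AlgebraicClosure K)) {f : ℕ} (hBf : IsFamily B n f)
    {δ : Place k K → ℝ} {δ' : MemDiv B} (hδ : IsRestrMem B δ δ') {S : Finset K} {m b N : ℕ}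
    (hmax : ∀ N', MemIndep B f δ' S m b N' → N' ≤ N) {c : Fin N → K} {w : K} (hw : w ≠ 0)
    (hsec : ∀ i, PairSec k K n δ S m b (frm k y m (c i * w)))
    (hc : LinearIndependent B fun i => algebraMap K (AlgebraicClosure K) (c i)) (i₀ : Fin N) :
    (∀ a, MemImageDim B f δ' S m b a → ∃ e : Fin a → Fin N,
      AlgebraicIndependent (Des B) fun l => c (e l) / c i₀) ∧
    (MemImageBir B f δ' S m b → IntermediateField.adjoin B
      (Set.range fun i => algebraMap K (MemField B) (c i / c i₀)) = ⊤) := by
  obtain ⟨hB, hf1, d, hd, hf⟩ := hBf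
  subst hf
  obtain ⟨E, hE⟩ := Pool.Agent.W636.PG.exists_duals k K _ _ hy
  obtain ⟨t, ht⟩ := Pool.Agent.W636.PG.exists_basis k B d hd
  -- the finite extension
  let K' : IntermediateField K (AlgebraicClosure K) :=
    IntermediateField.adjoin K (Set.range fun i => (t i : AlgebraicClosure K))
  have hfin : FiniteDimensional K K' := by
    refine IntermediateField.finiteDimensional_adjoin fun z _ => ?_
    exact (Algebra.IsAlgebraic.isAlgebraic z).isIntegral
  have hKF : ∀ z : K', (z : AlgebraicClosure K) ∈ Mem B := by
    intro z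
    have h1 : K'.toSubfield ≤ (Mem B).toSubfield := by
      rw [IntermediateField.adjoin_toSubfield, Subfield.closure_le]
      rintro w (⟨a, rfl⟩ | ⟨i, rfl⟩)
      · exact IntermediateField.subset_adjoin _ _ ⟨a, rfl⟩
      · exact (Mem B).algebraMap_mem (t i)
    exact h1 z.2
  let _ : Algebra K' (MemField B) :=
    ((algebraMap K' (AlgebraicClosure K)).codRestrict (Mem B).toSubring hKF).toAlgebra
  let L : IntermediateField k K' :=
    B.comap (K'.val.restrictScalars k)
  have hLB : ∀ z : L, ((z : K') : AlgebraicClosure K) ∈ B := fun z => z.2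
  let _ : Algebra L B :=
    (((algebraMap K' (AlgebraicClosure K)).comp (algebraMap L K')).codRestrict
      B.toSubring hLB).toAlgebra
  have _ : IsScalarTower k K' (AlgebraicClosure K) := IsScalarTower.of_algebraMap_eq fun c =>
    IsScalarTower.algebraMap_apply k K (AlgebraicClosure K) c
  have _ : IsScalarTower L B (MemField B) := IsScalarTower.of_algebraMap_eq fun z => rfl
  have _ : IsScalarTower L K' (MemField B) := IsScalarTower.of_algebraMap_eq fun z => rfl
  have _ : IsScalarTower k K' (MemField B) := IsScalarTower.of_algebraMap_eq fun c =>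
    Subtype.ext (IsScalarTower.algebraMap_apply k K' (AlgebraicClosure K) c)
  have _ : IsScalarTower k L B := IsScalarTower.of_algebraMap_eq fun c =>
    Subtype.ext (IsScalarTower.algebraMap_apply k K' (AlgebraicClosure K) c)
  have _ : IsScalarTower K K' (MemField B) := IsScalarTower.of_algebraMap_eq fun c =>
    Subtype.ext (IsScalarTower.algebraMap_apply K K' (AlgebraicClosure K) c)
  have htK : ∀ i, (t i : AlgebraicClosure K) ∈ K' := fun i =>
    IntermediateField.subset_adjoin K _ ⟨i, rfl⟩
  let t' : Fin d → L := fun i => ⟨⟨(t i : AlgebraicClosure K), htK i⟩, (t i).2⟩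
  -- membership in `L`
  have hL : ∀ z : K', z ∈ L ↔
      IsAlgebraic (Algebra.adjoin k (Set.range fun i => (t' i : K'))) z := by
    intro z
    rw [alg_iff_up (Ω := AlgebraicClosure K)]
    have h1 : algebraMap K' (AlgebraicClosure K) '' (Set.range fun i => (t' i : K')) =
        Set.range fun i => (t i : AlgebraicClosure K) := by
      rw [← Set.range_comp]
      rfl
    rw [h1]
    exact mem_of_alg B hB ht (z : AlgebraicClosure K)
  have ht'0 : AlgebraicIndependent k t' := by
    have h1 : AlgebraicIndependent k ((IsScalarTower.toAlgHom k L B) ∘ t') := by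
      have h2 : (IsScalarTower.toAlgHom k L B) ∘ t' = t := rfl
      rw [h2]
      exact ht.1
    exact h1.of_comp _
  have ht' : IsTranscendenceBasis k t' := by
    rw [isTranscendenceBasis_iff_algebraicIndependent_isAlgebraic]
    exact ⟨ht'0, ⟨fun z => alg_down L ht'0 ((hL _).1 z.2)⟩⟩
  have hBalg : Algebra.IsAlgebraic L B := by
    refine ⟨fun z => ?_⟩
    have h1 : IsAlgebraic (Algebra.adjoin k (Set.range t)) z := ht.isAlgebraic.isAlgebraic z
    have h2 : ∀ a : Algebra.adjoin k (Set.range t), ((a : B) : AlgebraicClosure K) ∈ K' := by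
      intro a
      have h3 : Algebra.adjoin k (Set.range t) ≤
          (K'.restrictScalars k).toSubalgebra.comap B.val := by
        rw [Algebra.adjoin_le_iff]
        rintro _ ⟨i, rfl⟩
        exact IntermediateField.subset_adjoin K _ ⟨i, rfl⟩
      exact h3 a.2
    let f : Algebra.adjoin k (Set.range t) →+* K' :=
      ((algebraMap B (AlgebraicClosure K)).comp
        (algebraMap (Algebra.adjoin k (Set.range t)) B)).codRestrict K' h2
    have h3 : ∀ a, f a ∈ L := fun a => (a : B).2
    refine isAlg_of_hom (f.codRestrict L h3) (fun a b hab => ?_) (fun a => Subtype.ext rfl) h1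
    have h4 := congrArg (fun z : L => ((z : K') : AlgebraicClosure K)) hab
    exact Subtype.ext (Subtype.ext h4)
  have hgenF : IntermediateField.adjoin B (Set.range (algebraMap K' (MemField B))) = ⊤ := by
    rw [_root_.eq_top_iff]
    intro z _
    have h1 : IntermediateField.adjoin B (Set.range (algebraMap K (AlgebraicClosure K))) ≤
        (IntermediateField.adjoin B (Set.range (algebraMap K' (MemField B)))).map (Mem B).val := by
      rw [IntermediateField.adjoin_le_iff]
      rintro _ ⟨a, rfl⟩
      exact ⟨algebraMap K' (MemField B) (algebraMap K K' a),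
        IntermediateField.subset_adjoin _ _ ⟨_, rfl⟩, rfl⟩
    obtain ⟨w, hw, hwz⟩ := h1 z.2
    have : w = z := Subtype.ext hwz
    rwa [this] at hw
  have hessK : Algebra.EssFiniteType k K' := Algebra.EssFiniteType.comp k K K'
  have hn' : Algebra.trdeg k K' = (d + f : ℕ) := by
    have h1 := trdeg_add_eq k K (A := K')
    rw [hn, trdeg_eq_zero (R := K), add_zero] at h1
    exact h1.symm
  have hLd : Algebra.trdeg k L = d := by
    have h1 := trdeg_add_eq k L (A := B)
    rw [hd, trdeg_eq_zero (R := L) (A := B), add_zero] at h1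
    exact h1
  obtain ⟨x', hx'⟩ := Pool.Agent.W636.PG.exists_basis L K' f (trdeg_LK (L := L) hLd hn')
  have happ := basis_append ht' hx'
  obtain ⟨E', hE'⟩ := Pool.Agent.W636.PG.exists_duals k K' _ _ happ
  obtain ⟨δK, hδK⟩ := exists_pull (k := k) (K := K) (L := K') δ
  have hfib : IsPullFib δK δ' := pull_fib hδ hδK
  have hyK : IsTranscendenceBasis k (algebraMap K K' ∘ y) := by
    have h3 : AlgebraicIndependent k (algebraMap K K' ∘ y) :=
      hy.1.map' (f := IsScalarTower.toAlgHom k K K') (algebraMap K K').injective
    refine h3.isTranscendenceBasis_of_lift_trdeg_le_of_finite ?_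
    rw [hn']
    simp
  have hdet := det_ne hyK happ hE'
  -- the set of indices
  let I : Finset (Fin (d + f)) := Finset.univ.image (Fin.natAdd d)
  have hIcard : I.card = f := by
    rw [Finset.card_image_of_injective _ (Fin.natAdd_injective _ _), Finset.card_univ,
      Fintype.card_fin]
  have hIne : I.Nonempty := by
    rw [← Finset.card_pos, hIcard]
    omega
  have hset : ((Fin.append (algebraMap L K' ∘ t') x' : Fin (d + f) → K') '' {i | i ∉ I}) =
      Set.range fun i => (t' i : K') := by
    ext z
    constructor
    · rintro ⟨i, hi, rfl⟩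
      refine Fin.addCases (fun i hi => ?_) (fun i hi => ?_) i hi
      · rw [Fin.append_left]
        exact ⟨i, rfl⟩
      · exact (hi (Finset.mem_image_of_mem _ (Finset.mem_univ _))).elim
    · rintro ⟨i, rfl⟩
      refine ⟨Fin.castAdd f i, fun h => ?_, Fin.append_left _ _ _⟩
      obtain ⟨j, -, hj⟩ := Finset.mem_image.1 h
      have h2 := congrArg Fin.val hj
      simp only [Fin.val_natAdd, Fin.val_castAdd] at h2
      omega
  let J : K' := (Matrix.of fun a b => E' a ((algebraMap K K' ∘ y) b)).det ^ m
  have hJ : J ≠ 0 := pow_ne_zero _ hdet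
  have hsec' : ∀ i, PairSec k K' (d + f) δK (S.image (algebraMap K K')) m b
      (frm k (Fin.append (algebraMap L K' ∘ t') x') m
        (algebraMap K K' (c i) * (J * algebraMap K K' w))) := by
    intro i
    have h1 := pair_pull hess hn hδK y E hy hE (hsec i)
    rw [eq_frm happ hE' h1.1] at h1
    have h2 : (Matrix.of fun a b => E' a (algebraMap K K' (y b))).det ^ m *
        algebraMap K K' (frm k y m (c i * w) E) =
        algebraMap K K' (c i) * (J * algebraMap K K' w) := by
      rw [frm_E hE, map_mul]
      show J * _ = _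
      ring
    rwa [h2] at h1
  have hc' : LinearIndependent L fun i => algebraMap K K' (c i) := by
    rw [Fintype.linearIndependent_iff] at hc ⊢
    intro g hg i
    have h1 := congrArg (algebraMap K' (AlgebraicClosure K)) hg
    rw [map_sum, map_zero] at h1
    have h2 := hc (fun i => algebraMap L B (g i)) (by
      rw [← h1]
      refine Finset.sum_congr rfl fun i _ => ?_
      rw [Algebra.smul_def, Algebra.smul_def, map_mul]
      rfl) i
    exact (algebraMap L B).injective (h2.trans (map_zero _).symm)
  have hmax' : ∀ N', HasIndep B (MemField B) I.card N' (PairSec B (MemField B) I.card δ'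
      ((S.image (algebraMap K K')).image (algebraMap K' (MemField B))) m b) → N' ≤ N := by
    rw [hIcard, Finset.image_image]
    exact hmax
  obtain ⟨hA, hBir⟩ := fib_side (k := k) (K := K') hessK hn' happ I hIne L
    (fun z => by rw [hset]; exact hL z) hgenF hfib hmax' (mul_ne_zero hJ (by simpa using hw))
    hsec' hc' i₀
  rw [hIcard, Finset.image_image] at hA hBir
  refine ⟨fun a ha => ?_, fun h => ?_⟩
  · obtain ⟨e, he⟩ := hA a ha
    refine ⟨e, ?_⟩
    have hDL : ∀ z : Des B, algebraMap K K' (z : K) ∈ L := fun z => z.2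
    let _ : Algebra (Des B) L :=
      (((algebraMap K K').comp (algebraMap (Des B) K)).codRestrict L hDL).toAlgebra
    have _ : IsScalarTower (Des B) L K' := IsScalarTower.of_algebraMap_eq fun z => rfl
    have _ : IsScalarTower (Des B) K K' := IsScalarTower.of_algebraMap_eq fun z => rfl
    have h1 := he.restrictScalars (algebraMap (Des B) L).injective
    have h2 : (fun l => algebraMap K K' (c (e l)) / algebraMap K K' (c i₀)) =
        (IsScalarTower.toAlgHom (Des B) K K') ∘ fun l => c (e l) / c i₀ := by
      funext l
      show _ = algebraMap K K' (c (e l) / c i₀)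
      rw [map_div₀]
    rw [h2] at h1
    exact h1.of_comp _
  · have h1 := hBir h
    have h2 : (fun i => algebraMap K' (MemField B) (algebraMap K K' (c i) /
        algebraMap K K' (c i₀))) = fun i => algebraMap K (MemField B) (c i / c i₀) := by
      funext i
      rw [← map_div₀]
      rfl
    rwa [h2] at h1

end

end Pool.Agent.H891.RF
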