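import Pool.Agent.H891.RF.Basis

/-! Two complementary covering families: the structure of the sections in the equality case. -/

set_option autoImplicit false
set_option linter.overlappingInstances false
set_option linter.unusedSectionVars false

open FF IntermediateField Algebra Pool.Agent.W619.PQ Pool.Agent.W619.PL Pool.Agent.W619.TW
  Pool.Agent.W603.LV Pool.Agent.W619.Y Pool.Agent.Y174 Pool.Agent.Y173.QA Pool.Agent.H891.KS
  Pool.Agent.H891.TY Pool.Agent.H891.RG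

namespace Pool.Agent.H891.RF

section

variable {k K : Type} [Field k] [CharZero k] [Field K] [Algebra k K] [IsAlgClosed k]

/-- The valuations. -/
theorem halves {n : ℕ} (hn : Algebra.trdeg k K = n)
    (B₁ B₂ : IntermediateField k (AlgebraicClosure K)) {f₁ f₂ : ℕ} (hB₁ : IsFamily B₁ n f₁)
    (hB₂ : IsFamily B₂ n f₂) (hf : f₁ + f₂ = n) (hT : Tan B₁ ⊓ Tan B₂ = ⊥) :
    (∃ (O : ValuationSubring (AlgebraicClosure (AlgebraicClosure K)))
      (C : Subfield (AlgebraicClosure (AlgebraicClosure K))), HalfVal O.valuation B₁ B₂ C) ∧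
    ∃ (O : ValuationSubring (AlgebraicClosure (AlgebraicClosure K)))
      (C : Subfield (AlgebraicClosure (AlgebraicClosure K))), HalfVal O.valuation B₂ B₁ C := by
  obtain ⟨x, I, hx, h1, h2⟩ := exists_coords hn B₁ B₂ hB₁ hB₂ hf hT
  refine ⟨exists_half hx I B₁ B₂ h1 h2, exists_half hx Iᶜ B₂ B₁ ?_ h1⟩
  rw [compl_compl]
  exact h2

open scoped Classical in
theorem two_bound' (hess : Algebra.EssFiniteType k K) {n : ℕ} (hn : Algebra.trdeg k K = n)
    {y : Fin n → K} (hy : IsTranscendenceBasis k y) {E : Fin n → Derivation k K K}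
    (hE : ∀ i j, E i (y j) = if i = j then 1 else 0)
    {B₁ B₂ : IntermediateField k (AlgebraicClosure K)} {f₁ f₂ : ℕ} (hB₁ : IsFamily B₁ n f₁)
    (hB₂ : IsFamily B₂ n f₂) (hf : f₁ + f₂ = n) (hT : Tan B₁ ⊓ Tan B₂ = ⊥)
    {δ : Place k K → ℝ} {δ₁ : MemDiv B₁} {δ₂ : MemDiv B₂} (hδ₁ : IsRestrMem B₁ δ δ₁)
    (hδ₂ : IsRestrMem B₂ δ δ₂) {S : Finset K} {m b N N₁ N₂ : ℕ}
    (hN₁ : ∀ N', MemIndep B₁ f₁ δ₁ S m b N' → N' ≤ N₁)
    (hN₂ : ∀ N', MemIndep B₂ f₂ δ₂ S m b N' → N' ≤ N₂)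
    {ω : Fin N → (Fin n → Derivation k K K) → K} (hω : ∀ l, PairSec k K n δ S m b (ω l))
    (hli : LinearIndependent k ω) :
    Module.finrank k (Submodule.span k
      (Set.range fun l => algebraMap K (AlgebraicClosure K) (ω l E))) = N ∧
    Module.finrank B₁ (Submodule.span B₁ (Submodule.span k
      (Set.range fun l => algebraMap K (AlgebraicClosure K) (ω l E)) :
        Set (AlgebraicClosure K))) ≤ N₁ ∧
    Module.finrank B₂ (Submodule.span B₂ (Submodule.span k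
      (Set.range fun l => algebraMap K (AlgebraicClosure K) (ω l E)) :
        Set (AlgebraicClosure K))) ≤ N₂ ∧
    N ≤ Module.finrank B₁ (Submodule.span B₁ (Submodule.span k
      (Set.range fun l => algebraMap K (AlgebraicClosure K) (ω l E)) :
        Set (AlgebraicClosure K))) *
      Module.finrank B₂ (Submodule.span B₂ (Submodule.span k
      (Set.range fun l => algebraMap K (AlgebraicClosure K) (ω l E)) :
        Set (AlgebraicClosure K))) := by
  have hexp : ∀ D : Derivation k K K, ∃ a : Fin n → K, D = ∑ i, a i • E i :=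
    fun D => ⟨_, der_expand hy hE D⟩
  have hlin := lin_frame hexp hli (fun l => (hω l).1) (one_ne_zero (α := K))
  simp only [one_mul] at hlin
  have hlinΩ : LinearIndependent k fun l => algebraMap K (AlgebraicClosure K) (ω l E) :=
    hlin.map' (IsScalarTower.toAlgHom k K (AlgebraicClosure K)).toLinearMap
      (LinearMap.ker_eq_bot.2 (algebraMap K (AlgebraicClosure K)).injective)
  have hrank : Module.finrank k (Submodule.span k
      (Set.range fun l => algebraMap K (AlgebraicClosure K) (ω l E))) = N := by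
    rw [finrank_span_eq_card hlinΩ, Fintype.card_fin]
  have hspan : ∀ T : IntermediateField k (AlgebraicClosure K), Submodule.span T
      (Submodule.span k (Set.range fun l => algebraMap K (AlgebraicClosure K) (ω l E)) :
        Set (AlgebraicClosure K)) =
      Submodule.span T (Set.range fun l => algebraMap K (AlgebraicClosure K) (ω l E)) := by
    intro T
    apply le_antisymm
    · rw [Submodule.span_le]
      exact Submodule.span_subset_span k T _
    · exact Submodule.span_mono Submodule.subset_span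
  obtain ⟨⟨O, C, H⟩, -⟩ := halves hn B₁ B₂ hB₁ hB₂ hf hT
  obtain ⟨hc₁, h₁, d₁, hd₁, e₁⟩ := hB₁
  obtain ⟨hc₂, h₂, d₂, hd₂, e₂⟩ := hB₂
  refine ⟨hrank, ?_, ?_, ?_⟩
  · rw [hspan]
    exact hN₁ _ (mem_rank hess hn hy hE B₁ hc₁ hd₁ e₁ h₁ hδ₁ S ω hω)
  · rw [hspan]
    exact hN₂ _ (mem_rank hess hn hy hE B₂ hc₂ hd₂ e₂ h₂ hδ₂ S ω hω)
  · have hfd : FiniteDimensional k (Submodule.span k
        (Set.range fun l => algebraMap K (AlgebraicClosure K) (ω l E))) :=
      FiniteDimensional.span_of_finite k (Set.finite_range _)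
    have h1 := H.rank_le (Submodule.span k
      (Set.range fun l => algebraMap K (AlgebraicClosure K) (ω l E)))
    rwa [hrank] at h1

/-- descent of the structure to the function field -/
theorem struct_desc {B₁ B₂ : IntermediateField k (AlgebraicClosure K)} {N : ℕ} {u : Fin N → K}
    {n₁ n₂ : ℕ} (hp1 : 0 < n₁) (hp2 : 0 < n₂) {w₀ : AlgebraicClosure K}
    {a : Fin n₂ → AlgebraicClosure K} {c : Fin n₁ → AlgebraicClosure K} (hw₀ : w₀ ≠ 0)
    (ha : ∀ j, a j ∈ B₁) (hc : ∀ i, c i ∈ B₂) (hla : LinearIndependent k a)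
    (hlc : LinearIndependent k c)
    (hW : Submodule.span k (Set.range fun l => algebraMap K (AlgebraicClosure K) (u l)) =
      Submodule.span k (Set.range fun p : Fin n₂ × Fin n₁ => a p.1 * c p.2 * w₀)) :
    ∃ (w : K) (a' : Fin n₂ → K) (c' : Fin n₁ → K), w ≠ 0 ∧
      (∀ j, algebraMap K (AlgebraicClosure K) (a' j) ∈ B₁) ∧
      (∀ i, algebraMap K (AlgebraicClosure K) (c' i) ∈ B₂) ∧ LinearIndependent k a' ∧
      LinearIndependent k c' ∧ Submodule.span k (Set.range u) =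
        Submodule.span k (Set.range fun p : Fin n₂ × Fin n₁ => a' p.1 * c' p.2 * w) := by
  let i₀ : Fin n₁ := ⟨0, hp1⟩
  let j₀ : Fin n₂ := ⟨0, hp2⟩
  have ha0 : ∀ j, a j ≠ 0 := fun j => hla.ne_zero j
  have hc0 : ∀ i, c i ≠ 0 := fun i => hlc.ne_zero i
  let ψ : K →ₐ[k] AlgebraicClosure K := IsScalarTower.toAlgHom k K (AlgebraicClosure K)
  have hψ : Function.Injective ψ := (algebraMap K (AlgebraicClosure K)).injective
  have hmap : (Submodule.span k (Set.range u)).map ψ.toLinearMap =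
      Submodule.span k (Set.range fun p : Fin n₂ × Fin n₁ => a p.1 * c p.2 * w₀) := by
    rw [Submodule.map_span, ← Set.range_comp, ← hW]
    rfl
  have hex : ∀ j i, ∃ z : K, ψ z = a j * c i * w₀ := by
    intro j i
    have h1 : a j * c i * w₀ ∈ (Submodule.span k (Set.range u)).map ψ.toLinearMap := by
      rw [hmap]
      exact Submodule.subset_span ⟨(j, i), rfl⟩
    obtain ⟨z, -, hz⟩ := h1
    exact ⟨z, hz⟩
  choose z hz using hex
  have hw : z j₀ i₀ ≠ 0 := by
    intro h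
    have h1 := hz j₀ i₀
    rw [h, map_zero] at h1
    exact mul_ne_zero (mul_ne_zero (ha0 _) (hc0 _)) hw₀ h1.symm
  have ha' : ∀ j, ψ (z j i₀ / z j₀ i₀) = a j / a j₀ := by
    intro j
    rw [map_div₀, hz, hz, mul_div_mul_right _ _ hw₀, mul_div_mul_right _ _ (hc0 i₀)]
  have hc' : ∀ i, ψ (z j₀ i / z j₀ i₀) = c i / c i₀ := by
    intro i
    rw [map_div₀, hz, hz, mul_div_mul_right _ _ hw₀, mul_div_mul_left _ _ (ha0 j₀)]
  refine ⟨z j₀ i₀, fun j => z j i₀ / z j₀ i₀, fun i => z j₀ i / z j₀ i₀, hw, ?_, ?_, ?_, ?_, ?_⟩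
  · intro j
    have h1 := ha' j
    show ψ (z j i₀ / z j₀ i₀) ∈ B₁
    rw [h1]
    exact div_mem (ha j) (ha j₀)
  · intro i
    show ψ (z j₀ i / z j₀ i₀) ∈ B₂
    rw [hc']
    exact div_mem (hc i) (hc i₀)
  · have h1 : LinearIndependent k (ψ.toLinearMap ∘ fun j => z j i₀ / z j₀ i₀) := by
      have h2 : (ψ.toLinearMap ∘ fun j => z j i₀ / z j₀ i₀) =
          (LinearMap.mulRight k (a j₀)⁻¹) ∘ a := by
        funext j
        show ψ (z j i₀ / z j₀ i₀) = a j * (a j₀)⁻¹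
        rw [ha', div_eq_mul_inv]
      rw [h2]
      exact hla.map' _ (LinearMap.ker_eq_bot.2 fun p q h =>
        mul_right_cancel₀ (inv_ne_zero (ha0 j₀)) h)
    exact h1.of_comp _
  · have h1 : LinearIndependent k (ψ.toLinearMap ∘ fun i => z j₀ i / z j₀ i₀) := by
      have h2 : (ψ.toLinearMap ∘ fun i => z j₀ i / z j₀ i₀) =
          (LinearMap.mulRight k (c i₀)⁻¹) ∘ c := by
        funext i
        show ψ (z j₀ i / z j₀ i₀) = c i * (c i₀)⁻¹
        rw [hc', div_eq_mul_inv]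
      rw [h2]
      exact hlc.map' _ (LinearMap.ker_eq_bot.2 fun p q h =>
        mul_right_cancel₀ (inv_ne_zero (hc0 i₀)) h)
    exact h1.of_comp _
  · apply Submodule.map_injective_of_injective (f := ψ.toLinearMap) hψ
    rw [hmap, Submodule.map_span, ← Set.range_comp]
    congr 2
    funext p
    show a p.1 * c p.2 * w₀ = ψ (z p.1 i₀ / z j₀ i₀ * (z j₀ p.2 / z j₀ i₀) * z j₀ i₀)
    rw [map_mul, map_mul, ha', hc', hz]
    field_simp [ha0 j₀, hc0 i₀]

open scoped Classical in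
/-- **The structure of the sections in the case of equality.** -/
theorem fam_core (hess : Algebra.EssFiniteType k K) {n : ℕ} (hn : Algebra.trdeg k K = n)
    {y : Fin n → K} (hy : IsTranscendenceBasis k y)
    {B₁ B₂ : IntermediateField k (AlgebraicClosure K)} {f₁ f₂ : ℕ} (hB₁ : IsFamily B₁ n f₁)
    (hB₂ : IsFamily B₂ n f₂) (hf : f₁ + f₂ = n) (hT : Tan B₁ ⊓ Tan B₂ = ⊥)
    {δ : Place k K → ℝ} {δ₁ : MemDiv B₁} {δ₂ : MemDiv B₂} (hδ₁ : IsRestrMem B₁ δ δ₁)
    (hδ₂ : IsRestrMem B₂ δ δ₂) {S : Finset K} {m b N₁ N₂ : ℕ}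
    (hN₁ : ∀ N', MemIndep B₁ f₁ δ₁ S m b N' → N' ≤ N₁)
    (hN₂ : ∀ N', MemIndep B₂ f₂ δ₂ S m b N' → N' ≤ N₂)
    (hN : HasIndep k K n (N₁ * N₂) (PairSec k K n δ S m b)) (hpos : 0 < N₁ * N₂) :
    ∃ (w : K) (a : Fin N₂ → K) (c : Fin N₁ → K), w ≠ 0 ∧
      (∀ j, algebraMap K (AlgebraicClosure K) (a j) ∈ B₁) ∧
      (∀ i, algebraMap K (AlgebraicClosure K) (c i) ∈ B₂) ∧ LinearIndependent k a ∧
      LinearIndependent k c ∧ ∀ ω, PairSec k K n δ S m b ω ↔
        ∃ s : Fin N₂ × Fin N₁ → k, ω = frm k y m (∑ p, s p • (a p.1 * c p.2 * w)) := by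
  obtain ⟨E, hE⟩ := Pool.Agent.W636.PG.exists_duals k K n _ hy
  obtain ⟨ω, hli, hω⟩ := hN
  obtain ⟨hr, h1, h2, h3⟩ := two_bound' hess hn hy hE hB₁ hB₂ hf hT hδ₁ hδ₂ hN₁ hN₂ hω hli
  set W : Submodule k (AlgebraicClosure K) := Submodule.span k
    (Set.range fun l => algebraMap K (AlgebraicClosure K) (ω l E)) with hW
  have hfd : FiniteDimensional k W := FiniteDimensional.span_of_finite k (Set.finite_range _)
  set h₁ := Module.finrank B₁ (Submodule.span B₁ (W : Set (AlgebraicClosure K))) with hh₁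
  set h₂ := Module.finrank B₂ (Submodule.span B₂ (W : Set (AlgebraicClosure K))) with hh₂
  have e1 : h₁ = N₁ := by
    by_contra hne
    have h4 : h₁ * h₂ < N₁ * N₂ := by
      have h5 : h₁ < N₁ := lt_of_le_of_ne h1 hne
      have h6 : 0 < N₂ := Nat.pos_of_mul_pos_left hpos
      calc h₁ * h₂ ≤ h₁ * N₂ := Nat.mul_le_mul_left _ h2
        _ < N₁ * N₂ := Nat.mul_lt_mul_of_pos_right h5 h6
    omega
  have e2 : h₂ = N₂ := by
    by_contra hne
    have h4 : h₁ * h₂ < N₁ * N₂ := by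
      have h5 : h₂ < N₂ := lt_of_le_of_ne h2 hne
      have h6 : 0 < N₁ := Nat.pos_of_mul_pos_right hpos
      calc h₁ * h₂ ≤ N₁ * h₂ := Nat.mul_le_mul_right _ h1
        _ < N₁ * N₂ := Nat.mul_lt_mul_of_pos_left h5 h6
    omega
  obtain ⟨⟨O, C, H⟩, ⟨O', C', H'⟩⟩ := halves hn B₁ B₂ hB₁ hB₂ hf hT
  obtain ⟨w₀, a₀, c₀, hw₀, ha₀, hc₀, hla₀, hlc₀, hWeq⟩ := rigid H H' W (by rw [hr]; exact hpos)
    (hh₁.symm.trans e1) (hh₂.symm.trans e2) (by rw [hr])
  obtain ⟨w, a, c, hw, ha, hc, hla, hlc, hWK⟩ := struct_desc (Nat.pos_of_mul_pos_right hpos)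
    (Nat.pos_of_mul_pos_left hpos) hw₀ ha₀ hc₀ hla₀ hlc₀ (hW.symm.trans hWeq)
  refine ⟨w, a, c, hw, ha, hc, hla, hlc, fun η => ⟨fun hη => ?_, ?_⟩⟩
  · have hmax : ∀ N', HasIndep k K n N' (PairSec k K n δ S m b) → N' ≤ N₁ * N₂ := by
      rintro N' ⟨ω', hli', hω'⟩
      obtain ⟨-, g1, g2, g3⟩ := two_bound' hess hn hy hE hB₁ hB₂ hf hT hδ₁ hδ₂ hN₁ hN₂ hω' hli'
      exact g3.trans (Nat.mul_le_mul g1 g2)
    obtain ⟨s, hs⟩ := sec_span hli hω hmax hη
    have h4 : η E ∈ Submodule.span k (Set.range fun l => ω l E) := by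
      rw [hs, Finset.sum_apply]
      refine Submodule.sum_mem _ fun l _ => ?_
      exact Submodule.smul_mem _ _ (Submodule.subset_span ⟨l, rfl⟩)
    rw [hWK] at h4
    obtain ⟨t, ht⟩ := (Submodule.mem_span_range_iff_exists_fun k).1 h4
    refine ⟨t, ?_⟩
    rw [eq_frm hy hE hη.1, ← ht]
  · rintro ⟨t, rfl⟩
    have h4 : (∑ p, t p • (a p.1 * c p.2 * w)) ∈ Submodule.span k
        (Set.range fun l => ω l E) := by
      rw [hWK]
      exact Submodule.sum_mem _ fun p _ => Submodule.smul_mem _ _ (Submodule.subset_span ⟨p, rfl⟩)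
    obtain ⟨s, hs⟩ := (Submodule.mem_span_range_iff_exists_fun k).1 h4
    rw [← hs, frm_sum]
    have h5 : ∀ l, frm k y m (ω l E) = ω l := fun l => (eq_frm hy hE (hω l).1).symm
    simp only [h5]
    exact sec_comb hω s

end

end Pool.Agent.H891.RF
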